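import Pool.Agent.PVD.StmtsL

/-!
Squad PVD (MP_e25c73_gt), block L, row L_G64.
-/

set_option autoImplicit false

namespace Pool.Agent.PVD.L.H09

open Pool.Agent.PVD.L

lemma num {e A b j a c h J C1 C2 C3 κ : ℝ} (he : 0 < e) (he1 : e < 1 / 128)
    (hA0 : 0 ≤ A) (hA1 : A ≤ 1) (hb0 : 0 ≤ b) (hb1 : b ≤ 64) (hC1 : 0 < C1) (hC2 : 0 < C2)
    (ha : |a - A| ≤ C1 * e) (hc : |c - e * A| ≤ C1 * e ^ 2) (hh' : |h - e * b| ≤ C2 * e ^ 2)
    (hJ : |J + e * j| ≤ C3 * e ^ 2) (hκ : A + b + j - 2 * A * b ≤ -κ)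
    (hK : (64 * 65 + 2 * (C1 + C2) + 128 * C1 + 2 * C2 + 2 * C1 * C2 + C3) * e < κ) :
    (h + c) * (1 + 64 * e) - 2 * h * a - J < 0 := by
  have t1 : 64 * e ^ 2 * (A + b) ≤ 64 * 65 * e ^ 2 := by
    have := mul_le_mul_of_nonneg_left (show A + b ≤ 65 by linarith)
      (show (0 : ℝ) ≤ 64 * e ^ 2 by positivity)
    linarith
  have t2 : ((h - e * b) + (c - e * A)) * (1 + 64 * e) ≤ 2 * (C1 + C2) * e ^ 2 := by
    have h1 : (h - e * b) + (c - e * A) ≤ (C1 + C2) * e ^ 2 := by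
      have := (abs_le.mp hh').2
      have := (abs_le.mp hc).2
      linarith
    have h2 := mul_le_mul_of_nonneg_right h1 (show (0 : ℝ) ≤ 1 + 64 * e by positivity)
    have h3 : (C1 + C2) * e ^ 2 * (1 + 64 * e) ≤ (C1 + C2) * e ^ 2 * 2 :=
      mul_le_mul_of_nonneg_left (by linarith) (by positivity)
    linarith
  have t3 : -(2 * e * b * (a - A)) ≤ 128 * C1 * e ^ 2 := by
    have h1 : -(a - A) ≤ C1 * e := by
      have := (abs_le.mp ha).1
      linarith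
    have h2 := mul_le_mul_of_nonneg_left h1 (show (0 : ℝ) ≤ 2 * e * b by positivity)
    have h3 : 2 * e * b * (C1 * e) ≤ 2 * e * 64 * (C1 * e) :=
      mul_le_mul_of_nonneg_right (mul_le_mul_of_nonneg_left hb1 (by positivity)) (by positivity)
    have h4 : 2 * e * 64 * (C1 * e) = 128 * C1 * e ^ 2 := by ring
    linarith
  have t4 : -(2 * (h - e * b) * A) ≤ 2 * C2 * e ^ 2 := by
    have h1 : -(h - e * b) ≤ C2 * e ^ 2 := by
      have := (abs_le.mp hh').1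
      linarith
    have h2 := mul_le_mul_of_nonneg_right h1 hA0
    have h3 : C2 * e ^ 2 * A ≤ C2 * e ^ 2 * 1 := mul_le_mul_of_nonneg_left hA1 (by positivity)
    linarith
  have t5 : -(2 * (h - e * b) * (a - A)) ≤ 2 * C1 * C2 * e ^ 2 := by
    have h1 : |(h - e * b) * (a - A)| ≤ C2 * e ^ 2 * (C1 * e) := by
      rw [abs_mul]
      exact mul_le_mul hh' ha (abs_nonneg _) (by positivity)
    have h2 := (abs_le.mp h1).1
    have h3 : C2 * e ^ 2 * (C1 * e) ≤ C2 * e ^ 2 * (C1 * 1) :=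
      mul_le_mul_of_nonneg_left (mul_le_mul_of_nonneg_left (by linarith) hC1.le) (by positivity)
    linarith
  have t6 : -(J + e * j) ≤ C3 * e ^ 2 := by
    have := (abs_le.mp hJ).1
    linarith
  have t7 : e * (A + b + j - 2 * A * b) ≤ -(e * κ) := by
    have := mul_le_mul_of_nonneg_left hκ he.le
    linarith
  have t8 := mul_lt_mul_of_pos_left hK he
  have key : (h + c) * (1 + 64 * e) - 2 * h * a - J =
      e * (A + b + j - 2 * A * b) + 64 * e ^ 2 * (A + b) +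
      ((h - e * b) + (c - e * A)) * (1 + 64 * e) + -(2 * e * b * (a - A)) +
      -(2 * (h - e * b) * A) + -(2 * (h - e * b) * (a - A)) + -(J + e * j) := by
    ring
  rw [key]
  have t9 : e * ((64 * 65 + 2 * (C1 + C2) + 128 * C1 + 2 * C2 + 2 * C1 * C2 + C3) * e) =
      64 * 65 * e ^ 2 + 2 * (C1 + C2) * e ^ 2 + 128 * C1 * e ^ 2 + 2 * C2 * e ^ 2 +
      2 * C1 * C2 * e ^ 2 + C3 * e ^ 2 := by
    ring
  linarith

theorem g64 (hA : GeaStmt) (hH : GehStmt) (hJ : GejStmt) (hN : GnuStmt) : G64Stmt := by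
  obtain ⟨C1, hC1, h1⟩ := hA
  obtain ⟨C2, hC2, h2⟩ := hH
  obtain ⟨C3, hC3, h3⟩ := hJ
  obtain ⟨hκ, hA0, hA1, hb0, hb1⟩ := hN
  have hK : 0 < 64 * 65 + 2 * (C1 + C2) + 128 * C1 + 2 * C2 + 2 * C1 * C2 + C3 := by positivity
  refine ⟨-(A0 + b0 + j0 - 2 * A0 * b0) /
    (64 * 65 + 2 * (C1 + C2) + 128 * C1 + 2 * C2 + 2 * C1 * C2 + C3),
    div_pos (by linarith) hK, ?_⟩
  intro e he he0 he1
  rw [lt_div_iff₀ hK] at he0
  have h := num (κ := -(A0 + b0 + j0 - 2 * A0 * b0)) he he1 hA0 hA1 hb0 hb1 hC1 hC2 (h1 e he he1).1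
    (h1 e he he1).2 (h2 e he he1) (h3 e he he1) (by linarith) (by linarith)
  unfold GG
  have e1 : e / (1 / 64) = 64 * e := by
    rw [div_div_eq_mul_div, div_one]
    ring
  rw [e1]
  exact h

end Pool.Agent.PVD.L.H09
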