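import Pool.Agent.PVD.StmtsM2

/-!
Squad PVD (MP_e25c73_gt), block M, row M_MLI: limit of the five functions along every filter.
-/

set_option autoImplicit false

open MeasureTheory Filter Topology Set

namespace Pool.Agent.PVD.M.H09

open Pool.Agent.PVD.L Pool.Agent.PVD.M

lemma tendsto_nn {k : ℕ} (hk : 128 < k) : Tendsto (fun m : ℕ => (nn k m : ℝ)) atTop atTop := by
  refine tendsto_atTop_mono (f := fun m : ℕ => (m : ℝ) + (-1)) ?_
    (tendsto_atTop_add_const_right _ _ tendsto_natCast_atTop_atTop)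
  intro m
  have h : m ≤ nn k m + 1 := by
    unfold nn
    have : 1 * m ≤ k * m := Nat.mul_le_mul_right m (by omega)
    omega
  have h' : (m : ℝ) ≤ (nn k m : ℝ) + 1 := by exact_mod_cast h
  linarith

theorem mli (hALC : AlcStmt) (hSSC : SscStmt) (hPMC : PmcStmt) (hLMU : LmuStmt) : MliStmt := by
  intro k q d kap hOK ι F mm X x hmm hXm hX hx
  obtain ⟨hpos, cK, cL, clm, chK, chL⟩ := hPMC k q d kap hOK
  obtain ⟨hPK, hPL, hlm, -, -⟩ := hpos x hx
  obtain ⟨hk, hq0, hq1, hd0, hd1, hkap, hall⟩ := hOK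
  have hkr : (128 : ℝ) < k := by exact_mod_cast hk
  have he0 : (0 : ℝ) < 1 / k := by positivity
  have he1 : (1 : ℝ) / k < 1 / 128 := one_div_lt_one_div_of_lt (by norm_num) hkr
  have hxi : ∀ i, 0 ≤ x i ∧ x i ≤ 1 := fun i => ⟨hx.1 i, hx.2 i⟩
  have hsg : |psg d x - 1| ≤ d := by
    unfold psg
    obtain ⟨h0, h1⟩ := hxi 3
    rw [abs_le]
    constructor <;> nlinarith
  have hpu : ∀ i, |pu q x i| ≤ q := by
    intro i
    unfold pu
    obtain ⟨h0, h1⟩ := hxi i
    rw [abs_le]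
    constructor <;> nlinarith
  have hy0 : 1 / 64 ≤ py x := by
    unfold py
    have := (hxi 4).1
    linarith
  have hy1 : py x ≤ 1 := by
    unfold py
    have := (hxi 4).2
    linarith
  obtain ⟨hs0, hs1, -⟩ := hall (psg d x) (py x) (pu q x 0) (pu q x 1) (pu q x 2) hsg hy0 hy1
    (hpu 0) (hpu 1) (hpu 2)
  obtain ⟨hH, hPh, -⟩ := hLMU (1 / k) q (psg d x) (py x) (pu q x 0) (pu q x 1) (pu q x 2) he0 he1
    hq0 hy0 hy1 hs0 hs1
  have hXw : Tendsto X F (𝓝[Icc (0 : Fin 5 → ℝ) 1] x) := tendsto_nhdsWithin_iff.mpr ⟨hX, hXm⟩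
  have tK : ∀ i ∈ AK, Tendsto (fun a => hK k q (X a) i) F (𝓝 (hK k q x i)) :=
    fun i hi => ((chK i hi) x hx).tendsto.comp hXw
  have tL : ∀ i ∈ AL, Tendsto (fun a => hL k q d (X a) i) F (𝓝 (hL k q d x i)) :=
    fun i hi => ((chL i hi) x hx).tendsto.comp hXw
  have tl : Tendsto (fun a => lm k q d (X a)) F (𝓝 (lm k q d x)) := (clm x hx).tendsto.comp hXw
  have aK : ∀ i ∈ AK, Tendsto (fun a => al k (mm a) AK (hK k q (X a)) i) F (𝓝 (mK k q x i)) :=
    hALC k hk AK (Or.inl rfl) (mK k q x) hPK ι F mm (fun a => hK k q (X a)) hmm tK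
  have aL : ∀ i ∈ AL, Tendsto (fun a => al k (mm a) AL (hL k q d (X a)) i) F
      (𝓝 (mL k q d x i)) :=
    hALC k hk AL (Or.inr rfl) (mL k q d x) hPL ι F mm (fun a => hL k q d (X a)) hmm tL
  have sK : Tendsto (fun a => SS k (mm a) AK (hK k q (X a))) F
      (𝓝 (1 + Ph (1 / k) (mK k q x))) :=
    hSSC k hk AK (Or.inl rfl) (mK k q x) hPK ι F mm (fun a => hK k q (X a)) hmm tK
  have sL : Tendsto (fun a => SS k (mm a) AL (hL k q d (X a))) F
      (𝓝 (1 + Ph (1 / k) (mL k q d x))) :=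
    hSSC k hk AL (Or.inr rfl) (mL k q d x) hPL ι F mm (fun a => hL k q d (X a)) hmm tL
  have tn : Tendsto (fun a => 1 / (nn k (mm a) : ℝ)) F (𝓝 0) :=
    tendsto_const_nhds.div_atTop ((tendsto_nn hk).comp hmm)
  have tlog : Tendsto (fun a => Real.log (lm k q d (X a))) F (𝓝 (Real.log (lm k q d x))) :=
    tl.log hlm.ne'
  have m0K : (0 : Fin 4) ∈ AK := by decide
  have m1K : (1 : Fin 4) ∈ AK := by decide
  have m2K : (2 : Fin 4) ∈ AK := by decide
  have m1L : (1 : Fin 4) ∈ AL := by decide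
  have m2L : (2 : Fin 4) ∈ AL := by decide
  have m3L : (3 : Fin 4) ∈ AL := by decide
  have vK0 : mK k q x 0 = q := rfl
  have vK1 : mK k q x 1 = 1 := rfl
  have vK2 : mK k q x 2 = beta (1 / k) (py x) := rfl
  have vL : ∀ i, lm k q d x * mL k q d x i =
      nuL (1 / k) q (psg d x) (py x) (pu q x 0) (pu q x 1) i := by
    intro i
    change lm k q d x * (nuL (1 / k) q (psg d x) (py x) (pu q x 0) (pu q x 1) i / lm k q d x) = _
    field_simp
  have hL' : ∀ i, mL k q d x i * hL k q d x i =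
      nuL (1 / k) q (psg d x) (py x) (pu q x 0) (pu q x 1) i *
        Hm (1 / k) (nuL (1 / k) q (psg d x) (py x) (pu q x 0) (pu q x 1)) i := by
    intro i
    have h1 : hL k q d x i =
        lm k q d x * Hm (1 / k) (nuL (1 / k) q (psg d x) (py x) (pu q x 0) (pu q x 1)) i := hH i
    rw [h1, ← vL i]
    ring
  have n1 : nuL (1 / k) q (psg d x) (py x) (pu q x 0) (pu q x 1) 1 =
      (1 + q) * Real.exp (pu q x 0) := rfl
  have n2 : nuL (1 / k) q (psg d x) (py x) (pu q x 0) (pu q x 1) 2 =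
      (beta (1 / k) (py x) - ss (1 / k) q (psg d x) (py x)) * Real.exp (pu q x 1) := rfl
  have n3 : nuL (1 / k) q (psg d x) (py x) (pu q x 0) (pu q x 1) 3 =
      ss (1 / k) q (psg d x) (py x) := rfl
  constructor
  · have c0 : Tendsto (fun a => FF k (mm a) q d (X a) 0) F (𝓝 (F0 k q d x 0)) := by
      have h := (tl.mul (aL 1 m1L)).sub ((aK 0 m0K).add (aK 1 m1K))
      have e : lm k q d x * mL k q d x 1 - (mK k q x 0 + mK k q x 1) = F0 k q d x 0 := by
        rw [vL 1, n1, vK0, vK1]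
        change _ = (1 + q) * (Real.exp (pu q x 0) - 1)
        ring
      rw [e] at h
      exact h
    have c1 : Tendsto (fun a => FF k (mm a) q d (X a) 1) F (𝓝 (F0 k q d x 1)) := by
      have h := (tl.mul ((aL 2 m2L).add (aL 3 m3L))).sub (aK 2 m2K)
      have e : lm k q d x * (mL k q d x 2 + mL k q d x 3) - mK k q x 2 = F0 k q d x 1 := by
        rw [mul_add, vL 2, vL 3, n2, n3, vK2]
        change _ = (beta (1 / k) (py x) - ss (1 / k) q (psg d x) (py x)) *
          (Real.exp (pu q x 1) - 1)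
        ring
      rw [e] at h
      exact h
    have c2 : Tendsto (fun a => FF k (mm a) q d (X a) 2) F (𝓝 (F0 k q d x 2)) := by
      have h := (sL.sub sK).sub (tn.mul tlog)
      have e : (1 + Ph (1 / k) (mL k q d x)) - (1 + Ph (1 / k) (mK k q x)) -
          0 * Real.log (lm k q d x) = F0 k q d x 2 := by
        have hPh' : Ph (1 / k) (mL k q d x) - Ph (1 / k) (mK k q x) = pu q x 2 := hPh
        change _ = pu q x 2
        linarith
      rw [e] at h
      exact h
    have c3 : Tendsto (fun a => FF k (mm a) q d (X a) 3) F (𝓝 (F0 k q d x 3)) := by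
      have hone : Tendsto (fun _ : ι => (1 : ℝ)) F (𝓝 1) := tendsto_const_nhds
      have h := (hone.sub (((aK 0 m0K).const_mul 2).mul (tK 0 m0K))).sub
        (tl.mul (hone.sub (((aL 3 m3L).const_mul 2).mul (tL 3 m3L))))
      have e : (1 - 2 * mK k q x 0 * hK k q x 0) -
          lm k q d x * (1 - 2 * mL k q d x 3 * hL k q d x 3) = F0 k q d x 3 := by
        have h3 := hL' 3
        rw [n3] at h3
        have h4 : 2 * mL k q d x 3 * hL k q d x 3 = 2 * ss (1 / k) q (psg d x) (py x) *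
            Hm (1 / k) (nuL (1 / k) q (psg d x) (py x) (pu q x 0) (pu q x 1)) 3 := by
          rw [mul_assoc, h3, mul_assoc]
        rw [h4, vK0]
        rfl
      rw [e] at h
      exact h
    have c4 : Tendsto (fun a => FF k (mm a) q d (X a) 4) F (𝓝 (F0 k q d x 4)) := by
      have h := ((((aK 1 m1K).mul (tK 1 m1K)).sub ((aK 0 m0K).mul (tK 0 m0K))).sub
        (tl.mul ((aL 1 m1L).mul (tL 1 m1L)))).neg
      have e : -(mK k q x 1 * hK k q x 1 - mK k q x 0 * hK k q x 0 -
          lm k q d x * (mL k q d x 1 * hL k q d x 1)) = F0 k q d x 4 := by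
        rw [hL' 1, n1, vK0, vK1, one_mul]
        rfl
      rw [e] at h
      exact h
    intro i
    fin_cases i
    · exact c0
    · exact c1
    · exact c2
    · exact c3
    · exact c4
  · exact aK 0 m0K

end Pool.Agent.PVD.M.H09
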